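import Pool.Agent.V11307.S7.Seven

set_option autoImplicit false

/-!
# Divisibility of two sums of seventh powers of central binomial coefficients
-/

namespace Pool.Agent.Results.MP_48d34c_nt.QTwo

open Finset

/-- `F(k) = 21k^3 + 22k^2 + 8k + 1` -/
def F (k : ℕ) : ℤ := 21 * (k : ℤ) ^ 3 + 22 * (k : ℤ) ^ 2 + 8 * k + 1

/-- `G(k) = 168k^3 + 76k^2 + 14k + 1` -/
def G (k : ℕ) : ℤ := 168 * (k : ℤ) ^ 3 + 76 * (k : ℤ) ^ 2 + 14 * k + 1

/-- `∑_{k=0}^{n-1} F(k) C(2k,k)^7 256^{n-1-k}` -/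
def SF (n : ℕ) : ℤ := ∑ k ∈ range n, F k * ((2 * k).choose k : ℤ) ^ 7 * 256 ^ (n - 1 - k)

/-- `∑_{k=0}^{n-1} G(k) C(2k,k)^7 2^{20(n-1-k)}` -/
def SG (n : ℕ) : ℤ := ∑ k ∈ range n, G k * ((2 * k).choose k : ℤ) ^ 7 * 2 ^ (20 * (n - 1 - k))

open V11307.S7 V11307.RI

theorem SF_succ (n : ℕ) : SF (n + 1) = 256 * SF n + F n * ((2 * n).choose n : ℤ) ^ 7 := by
  rw [SF, sum_range_succ, SF, mul_sum]
  congr 1
  · refine sum_congr rfl fun k hk => ?_
    rw [mem_range] at hk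
    rw [show n + 1 - 1 - k = (n - 1 - k) + 1 by omega, pow_succ]
    ring
  · simp

theorem SG_succ (n : ℕ) : SG (n + 1) = 2 ^ 20 * SG n + G n * ((2 * n).choose n : ℤ) ^ 7 := by
  rw [SG, sum_range_succ, SG, mul_sum]
  congr 1
  · refine sum_congr rfl fun k hk => ?_
    rw [mem_range] at hk
    rw [show 20 * (n + 1 - 1 - k) = 20 * (n - 1 - k) + 20 by omega, pow_add]
    ring
  · simp

/-- For every `n > 1` the number `2 n^3 C(2n,n)^3` divides both sums. -/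
theorem result : ∀ n : ℕ, 1 < n →
    (2 * (n : ℤ) ^ 3 * ((2 * n).choose n : ℤ) ^ 3 ∣
      ∑ k ∈ range n, (21 * (k : ℤ) ^ 3 + 22 * (k : ℤ) ^ 2 + 8 * k + 1) * ((2 * k).choose k : ℤ) ^ 7 *
        256 ^ (n - 1 - k)) ∧
    (2 * (n : ℤ) ^ 3 * ((2 * n).choose n : ℤ) ^ 3 ∣
      ∑ k ∈ range n, (168 * (k : ℤ) ^ 3 + 76 * (k : ℤ) ^ 2 + 14 * k + 1) * ((2 * k).choose k : ℤ) ^ 7 *
        2 ^ (20 * (n - 1 - k))) := by
  intro n hn
  constructor
  · have h := V11307.S7.final (κ := fun x => 21 * x ^ 3 + 22 * x ^ 2 + 8 * x + 1) (m := 256) (by norm_num) (S := SF)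
      (fun n => by rw [SF_succ]; rfl)
      (by norm_num [SF, F, sum_range_succ]) (fun n => ?_) hn
    · exact h
    · have h1 := closedF (S := fun n => (SF n : ℚ)) (by simp [SF]) (fun n => by
        rw [SF_succ]; unfold F c; push_cast; ring) n
      obtain ⟨z, hz⟩ := sum_int (g := fun j => 4 * gF n j) (fun j => gF_int n j) (range (n + 1))
      refine ⟨z, ?_⟩
      rw [← hz, ← mul_sum]
      exact congrArg (fun x => 4 * x) h1
  · have h := V11307.S7.final (κ := fun x => 168 * x ^ 3 + 76 * x ^ 2 + 14 * x + 1) (m := 2 ^ 20) (by norm_num) (S := SG)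
      (fun n => by rw [SG_succ]; rfl)
      (by norm_num [SG, G, sum_range_succ]) (fun n => ?_) hn
    · exact h
    · have h1 := closedG (S := fun n => (SG n : ℚ)) (by simp [SG]) (fun n => by
        rw [SG_succ]; unfold G c; push_cast; ring) n
      obtain ⟨z, hz⟩ := sum_int (fun j => gG_int n j) (range (n + 1))
      refine ⟨4 * z, ?_⟩
      have h2 : (SG (n + 1) : ℚ) = ∑ j ∈ range (n + 1), gG n j := h1
      rw [h2, hz]
      push_cast
      ring

end Pool.Agent.Results.MP_48d34c_nt.QTwo
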